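import Pool.Agent.MWGI.StmtsC

/-!
# MWGI, row MWD: the edge `Dz d` changes a label by `d`
-/

set_option autoImplicit false

namespace Pool.Agent.MWGI.H51

open Pool.Agent.Helper14_MV Pool.Agent.Helper2_MV Pool.Agent.MVO Pool.Agent.MWL Pool.Agent.MWS
  Pool.Agent.MWH Pool.Agent.MWGI

/-! ### insertion of powers -/

/-- insertion of `x^(n m)` -/
theorem insX {θ : FIC} {n : ℕ} (hB : BI n (RR θ)) (p w w' q : List ℕ) (x : ℕ)
    (hm : ∀ z ∈ w ++ w', 2 ≤ (p ++ x :: (w ++ (w' ++ x :: q))).count z) (m : ℕ) :
    RR θ (p ++ x :: (w ++ (w' ++ x :: q)))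
      (p ++ x :: (w ++ (List.replicate (n * m) x ++ (w' ++ x :: q)))) := by
  induction m with
  | zero => exact RR.refl _
  | succ m ih =>
    refine θ.trans ih ?_
    have h := hB.it p w (List.replicate (n * m) x ++ w') q x (by
      intro z hz
      by_cases hzx : z = x
      · subst hzx
        simp only [List.count_append, List.count_cons_self]
        omega
      · have h1 : z ∈ w ++ w' := by
          rw [List.mem_append] at hz ⊢
          rcases hz with h | h
          · exact Or.inl h
          · rw [List.mem_append] at h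
            rcases h with h | h
            · exact absurd (List.eq_of_mem_replicate h) hzx
            · exact Or.inr h
        have h2 := hm z h1
        simp only [List.count_append, List.count_cons] at h2 ⊢
        omega)
    have e : n * (m + 1) = n + n * m := by ring
    rw [e, List.replicate_add]
    simp only [List.append_assoc] at h ⊢
    exact h

theorem rsplit (x e m : ℕ) : List.replicate (e + 1 + m) x =
    List.replicate e x ++ x :: List.replicate m x := by
  rw [List.replicate_add, List.replicate_add]
  simp

/-- the exponent before `a` -/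
theorem twL {θ : FIC} {n : ℕ} (hB : BI n (RR θ)) (p q : List ℕ) (x a e f m : ℕ)
    (ha : a ∈ p ∨ a ∈ q) (he : 1 ≤ e) (hf : 1 ≤ f) :
    RR θ (p ++ (List.replicate e x ++ a :: (List.replicate f x ++ q)))
      (p ++ (List.replicate (e + n * m) x ++ a :: (List.replicate f x ++ q))) := by
  obtain ⟨e, rfl⟩ : ∃ e', e = e' + 1 := ⟨e - 1, by omega⟩
  obtain ⟨f, rfl⟩ : ∃ f', f = f' + 1 := ⟨f - 1, by omega⟩
  have h := insX hB (p ++ List.replicate e x) [] [a] (List.replicate f x ++ q) x (by
    intro z hz
    rw [List.nil_append, List.mem_singleton] at hz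
    subst hz
    have h3 : 0 < p.count z ∨ 0 < q.count z := by
      rcases ha with h | h
      · exact Or.inl (List.count_pos_iff.2 h)
      · exact Or.inr (List.count_pos_iff.2 h)
    simp only [List.count_append, List.nil_append, List.count_cons, List.count_nil,
      beq_self_eq_true, if_true]
    omega) m
  have e1 : p ++ (List.replicate (e + 1) x ++ a :: (List.replicate (f + 1) x ++ q)) =
      p ++ List.replicate e x ++ x :: ([] ++ ([a] ++ x :: (List.replicate f x ++ q))) := by
    rw [List.replicate_add e 1, List.replicate_succ (n := f)]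
    simp
  have e2 : p ++ (List.replicate (e + 1 + n * m) x ++ a :: (List.replicate (f + 1) x ++ q)) =
      p ++ List.replicate e x ++ x :: ([] ++ (List.replicate (n * m) x ++
        ([a] ++ x :: (List.replicate f x ++ q)))) := by
    rw [rsplit, List.replicate_succ (n := f)]
    simp
  rw [e1, e2]
  exact h

/-- the exponent behind `a` -/
theorem twR {θ : FIC} {n : ℕ} (hB : BI n (RR θ)) (p q : List ℕ) (x a e f m : ℕ)
    (ha : a ∈ p ∨ a ∈ q) (he : 1 ≤ e) (hf : 1 ≤ f) :
    RR θ (p ++ (List.replicate e x ++ a :: (List.replicate f x ++ q)))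
      (p ++ (List.replicate e x ++ a :: (List.replicate (f + n * m) x ++ q))) := by
  obtain ⟨e, rfl⟩ : ∃ e', e = e' + 1 := ⟨e - 1, by omega⟩
  obtain ⟨f, rfl⟩ : ∃ f', f = f' + 1 := ⟨f - 1, by omega⟩
  have h := insX hB (p ++ List.replicate e x) [a] [] (List.replicate f x ++ q) x (by
    intro z hz
    rw [List.append_nil, List.mem_singleton] at hz
    subst hz
    have h3 : 0 < p.count z ∨ 0 < q.count z := by
      rcases ha with h | h
      · exact Or.inl (List.count_pos_iff.2 h)
      · exact Or.inr (List.count_pos_iff.2 h)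
    simp only [List.count_append, List.nil_append, List.count_cons, List.count_nil,
      beq_self_eq_true, if_true]
    omega) m
  have e1 : p ++ (List.replicate (e + 1) x ++ a :: (List.replicate (f + 1) x ++ q)) =
      p ++ List.replicate e x ++ x :: ([a] ++ ([] ++ x :: (List.replicate f x ++ q))) := by
    rw [List.replicate_add e 1, List.replicate_succ (n := f)]
    simp
  have e2 : p ++ (List.replicate (e + 1) x ++ a :: (List.replicate (f + 1 + n * m) x ++ q)) =
      p ++ List.replicate e x ++ x :: ([a] ++ (List.replicate (n * m) x ++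
        ([] ++ x :: (List.replicate f x ++ q)))) := by
    have e3 : f + 1 + n * m = n * m + 1 + f := by ring
    rw [e3, rsplit, List.replicate_add e 1]
    simp
  rw [e1, e2]
  exact h

theorem mle {n e e' : ℕ} (h : e ≤ e') (hm : e ≡ e' [MOD n]) : ∃ m, e' = e + n * m := by
  obtain ⟨m, h1⟩ := (Nat.modEq_iff_dvd' h).1 hm
  exact ⟨m, by omega⟩

/-- congruent exponents around `a` -/
theorem tw {θ : FIC} {n : ℕ} (hB : BI n (RR θ)) (p q : List ℕ) (x a e e' f f' : ℕ)
    (ha : a ∈ p ∨ a ∈ q) (he : 1 ≤ e) (he' : 1 ≤ e') (hf : 1 ≤ f) (hf' : 1 ≤ f')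
    (hee : e ≡ e' [MOD n]) (hff : f ≡ f' [MOD n]) :
    RR θ (p ++ (List.replicate e x ++ a :: (List.replicate f x ++ q)))
      (p ++ (List.replicate e' x ++ a :: (List.replicate f' x ++ q))) := by
  have h1 : RR θ (p ++ (List.replicate e x ++ a :: (List.replicate f x ++ q)))
      (p ++ (List.replicate e' x ++ a :: (List.replicate f x ++ q))) := by
    rcases le_total e e' with h | h
    · obtain ⟨m, rfl⟩ := mle h hee
      exact twL hB p q x a e f m ha he hf
    · obtain ⟨m, rfl⟩ := mle h hee.symm
      exact (twL hB p q x a e' f m ha he' hf).symm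
  have h2 : RR θ (p ++ (List.replicate e' x ++ a :: (List.replicate f x ++ q)))
      (p ++ (List.replicate e' x ++ a :: (List.replicate f' x ++ q))) := by
    rcases le_total f f' with h | h
    · obtain ⟨m, rfl⟩ := mle h hff
      exact twR hB p q x a e' f m ha he' hf
    · obtain ⟨m, rfl⟩ := mle h hff.symm
      exact (twR hB p q x a e' f' m ha he' hf').symm
  exact θ.trans h1 h2

/-! ### insertion in all other blocks -/

theorem cmono (k : ℕ) (E F : ℕ → List ℕ) (z : ℕ) (h : ∀ j ≤ k, (E j).count z ≤ (F j).count z) :
    (asm k E).count z ≤ (asm k F).count z := by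
  induction k with
  | zero => exact h 0 le_rfl
  | succ k ih =>
    have h1 := ih (fun j hj => h j (by omega))
    have h2 := h (k + 1) le_rfl
    simp only [asm, List.count_append, List.count_cons]
    omega

theorem blocks {θ : FIC} {n k : ℕ} (hB : BI n (RR θ)) (x : ℕ) (E E' : ℕ → List ℕ)
    (hE : ∀ j ≤ k, E' j = E j ∨ ∃ P w Q : List ℕ, E j = P ++ x :: (w ++ x :: Q) ∧
      E' j = P ++ x :: (List.replicate (2 * n) x ++ (w ++ x :: Q)) ∧
      ∀ z ∈ w, 2 ≤ (asm k E).count z) : RR θ (asm k E) (asm k E') := by
  have key : ∀ m, m ≤ k + 1 →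
      RR θ (asm k E) (asm k (fun j => if j < m then E' j else E j)) := by
    intro m
    induction m with
    | zero =>
      intro _
      have e : asm k (fun j => if j < 0 then E' j else E j) = asm k E := by
        apply asm_congr
        intro j _
        rw [if_neg (by omega)]
      rw [e]
      exact RR.refl _
    | succ m ih =>
      intro hm
      refine θ.trans (ih (by omega)) ?_
      have hmk : m ≤ k := by omega
      have hmono : ∀ z, (asm k E).count z ≤
          (asm k (fun j => if j < m then E' j else E j)).count z := by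
        intro z
        apply cmono
        intro j hj
        by_cases h : j < m
        · simp only [if_pos h]
          rcases hE j hj with h1 | ⟨P, w, Q, h2, h3, -⟩
          · rw [h1]
          · rw [h2, h3]
            simp only [List.count_append, List.count_cons]
            omega
        · simp only [if_neg h]
          exact le_rfl
      generalize hF : (fun j => if j < m then E' j else E j) = F at hmono ⊢
      have hFm : F m = E m := by rw [← hF]; simp
      have h1 : asm k (fun j => if j < m + 1 then E' j else E j) =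
          asm k (Function.update F m (E' m)) := by
        apply asm_congr
        intro j hj
        by_cases hjm : j = m
        · subst hjm
          simp
        · rw [Function.update_of_ne hjm, ← hF]
          by_cases h : j < m
          · rw [if_pos (by omega)]
            simp only [if_pos h]
          · rw [if_neg (by omega)]
            simp only [if_neg h]
      rw [h1, asm_update hmk, asm_split hmk F, hFm]
      rcases hE m hmk with h | ⟨P, w, Q, h2, h3, h4⟩
      · rw [h]
        exact RR.refl _
      · have h5 := insX hB (pre F m ++ P) [] w (Q ++ suf F m (k - m)) x (by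
          intro z hz
          rw [List.nil_append] at hz
          have h6 := h4 z hz
          have h7 := hmono z
          rw [asm_split hmk F, hFm, h2] at h7
          have e : pre F m ++ P ++ x :: ([] ++ (w ++ x :: (Q ++ suf F m (k - m)))) =
              pre F m ++ (P ++ x :: (w ++ x :: Q)) ++ suf F m (k - m) := by
            simp
          rw [e]
          omega) 2
        rw [h2, h3, Nat.mul_comm 2 n]
        simp only [List.append_assoc, List.cons_append, List.nil_append] at h5 ⊢
        exact h5
  have h1 := key (k + 1) le_rfl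
  have e : asm k (fun j => if j < k + 1 then E' j else E j) = asm k E' := by
    apply asm_congr
    intro j hj
    rw [if_pos (by omega)]
  rw [e] at h1
  exact h1

/-! ### the substitution -/

/-- the substitution `0 ↦ x`, `1 ↦ a` -/
def hs (x a : ℕ) : ℕ → List ℕ := fun c => if c = 0 then [x] else [a]

theorem hs_X (x a m : ℕ) : (X m).flatMap (hs x a) = List.replicate m x := by
  induction m with
  | zero => rfl
  | succ m ih =>
    have e : X (m + 1) = 0 :: X m := List.replicate_succ
    rw [e, List.flatMap_cons, ih, List.replicate_succ]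
    rfl

theorem two_split {l : List ℕ} {x : ℕ} (h : 2 ≤ l.count x) :
    ∃ P w Q, l = P ++ x :: (w ++ x :: Q) := by
  have h1 : x ∈ l := List.count_pos_iff.1 (by omega)
  obtain ⟨P, R, h2, h3⟩ := List.eq_append_cons_of_mem h1
  have h4 : x ∈ R := by
    apply List.count_pos_iff.1
    rw [h2, List.count_append, List.count_cons_self, List.count_eq_zero.2 h3] at h
    omega
  obtain ⟨w, Q, h5⟩ := List.append_of_mem h4
  exact ⟨P, w, Q, by rw [h2, h5]⟩

/-- the contexts for `rr_ins` -/
structure Ctx (k i p x a : ℕ) (Z : ℕ → Bool) (C : ℕ → List ℕ) (P w Q : ℕ → List ℕ) : Prop where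
  z : ∀ j ≤ k, j ≠ i → j ≠ p → Z j = true → C j = P j ++ x :: (w j ++ x :: Q j)
  p : C p = P p ++ a :: Q p

theorem ctx {k i p x a : ℕ} {Z : ℕ → Bool} {C : ℕ → List ℕ} (hA : Act k C i p x a)
    (hZ : ∀ j ≤ k, j ≠ i → j ≠ p → (Z j = true ↔ x ∈ C j)) :
    ∃ P w Q : ℕ → List ℕ, Ctx k i p x a Z C P w Q := by
  have h1 : ∀ j, ∃ P w Q : List ℕ, (j ≤ k → j ≠ i → j ≠ p → Z j = true →
      C j = P ++ x :: (w ++ x :: Q)) ∧ (j = p → C p = P ++ a :: Q) := by
    intro j
    by_cases hj : j = p
    · have h2 : a ∈ C p := List.count_pos_iff.1 (by rw [hA.ap]; exact Nat.one_pos)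
      obtain ⟨P, Q, h3⟩ := List.append_of_mem h2
      exact ⟨P, [], Q, fun _ _ h => absurd hj h, fun _ => h3⟩
    · by_cases hc : j ≤ k ∧ j ≠ i ∧ Z j = true
      · have h2 : x ∈ C j := (hZ j hc.1 hc.2.1 hj).1 hc.2.2
        have h3 : 2 ≤ (C j).count x := by
          rcases hA.hx j hc.1 with h | h
          · exact absurd h2 (List.count_eq_zero.1 h)
          · exact h
        obtain ⟨P, w, Q, h4⟩ := two_split h3
        exact ⟨P, w, Q, fun _ _ _ _ => h4, fun h => absurd h hj⟩
      · exact ⟨[], [], [], fun h4 h5 _ h6 => absurd ⟨h4, h5, h6⟩ hc, fun h => absurd h hj⟩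
  choose P w Q h using h1
  exact ⟨P, w, Q, ⟨fun j => (h j).1, (h p).2 rfl⟩⟩

/-- the left contexts -/
def PP (i p x : ℕ) (Z : ℕ → Bool) (C P : ℕ → List ℕ) (L : List ℕ) : ℕ → List ℕ := fun j =>
  if j = i then L else if j = p then P p else if Z j then P j ++ [x] else C j

/-- the right contexts -/
def QQ (i p x : ℕ) (Z : ℕ → Bool) (w Q : ℕ → List ℕ) (R : List ℕ) : ℕ → List ℕ := fun j =>
  if j = i then R else if j = p then Q p else if Z j then w j ++ x :: Q j else []

/-- one side of the move -/
theorem side {θ : FIC} {n k i p x a : ℕ} {Z : ℕ → Bool} {C P w Q : ℕ → List ℕ}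
    (hB : BI n (RR θ)) (hA : Act k C i p x a) (hX : Ctx k i p x a Z C P w Q)
    (L R : List ℕ) (u v : ℕ)
    (hm : ∀ z, (∃ j ≤ k, j ≠ i ∧ z ∈ C j) → 2 ≤ (pre C i ++
      ((L ++ (List.replicate u x ++ a :: (List.replicate v x ++ R))) ++
        suf C i (k - i))).count z) :
    RR θ (Wd (pre C i) (suf C i (k - i))
        (L ++ (List.replicate u x ++ a :: (List.replicate v x ++ R))))
      (asm k (fun j => PP i p x Z C P L j ++ (wz n i p Z u v j).flatMap (hs x a) ++
        QQ i p x Z w Q R j)) := by
  have e0 : Wd (pre C i) (suf C i (k - i))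
      (L ++ (List.replicate u x ++ a :: (List.replicate v x ++ R))) =
      asm k (Function.update C i (L ++ (List.replicate u x ++
        a :: (List.replicate v x ++ R)))) := by
    rw [asm_update hA.ik]
    exact (List.append_assoc _ _ _).symm
  rw [e0]
  apply blocks hB x
  intro j hj
  by_cases hji : j = i
  · subst hji
    left
    rw [Function.update_self]
    unfold PP QQ wz
    rw [if_pos rfl, if_pos rfl, if_pos rfl, List.flatMap_append, List.flatMap_cons, hs_X, hs_X]
    have e1 : hs x a 1 = [a] := rfl
    rw [e1]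
    simp
  · rw [Function.update_of_ne hji]
    by_cases hjp : j = p
    · subst hjp
      left
      unfold PP QQ wz
      rw [if_neg hji, if_neg hji, if_neg hji, if_pos rfl, if_pos rfl, if_pos rfl, hX.p]
      have e1 : ([1] : List ℕ).flatMap (hs x a) = [a] := rfl
      rw [e1]
      simp
    · by_cases hZj : Z j = true
      · right
        refine ⟨P j, w j, Q j, hX.z j hj hji hjp hZj, ?_, ?_⟩
        · unfold PP QQ wz
          rw [if_neg hji, if_neg hji, if_neg hji, if_neg hjp, if_neg hjp, if_neg hjp,
            if_pos hZj, if_pos hZj, if_pos hZj, hs_X]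
          simp
        · intro z hz
          rw [asm_update hA.ik]
          have h1 := hm z ⟨j, hj, hji, by
            rw [hX.z j hj hji hjp hZj]
            simp [hz]⟩
          rw [List.append_assoc]
          exact h1
      · left
        unfold PP QQ wz
        rw [if_neg hji, if_neg hji, if_neg hji, if_neg hjp, if_neg hjp, if_neg hjp,
          if_neg hZj, if_neg hZj, if_neg hZj]
        simp

theorem blkOk_wz (n k i p : ℕ) (Z : ℕ → Bool) (u v : ℕ) : BlkOk k (wz n i p Z u v) := by
  intro j _ c hc
  have h : c = 0 ∨ c = 1 := by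
    unfold wz at hc
    split_ifs at hc
    · simp only [List.mem_append, List.mem_cons] at hc
      rcases hc with h | h | h
      · exact Or.inl (List.eq_of_mem_replicate h)
      · exact Or.inr h
      · exact Or.inl (List.eq_of_mem_replicate h)
    · exact Or.inr (List.mem_singleton.1 hc)
    · exact Or.inl (List.eq_of_mem_replicate hc)
    · exact absurd hc (List.not_mem_nil)
  intro hs
  rcases h with h | h
  · omega
  · omega

/-- multiple letters of the other blocks -/
theorem mulO {k i x a : ℕ} {H : List ℕ} {C : ℕ → List ℕ} (hC : OkB k C) (hik : i ≤ k)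
    (A D : List ℕ) (e f u v : ℕ)
    (hO : Ok1 k H (pre C i) (suf C i (k - i))
      (A ++ (List.replicate e x ++ a :: (List.replicate f x ++ D)))) (hu : 2 ≤ u + v)
    (z : ℕ) (hz : ∃ j ≤ k, j ≠ i ∧ z ∈ C j) :
    2 ≤ (pre C i ++ ((A ++ (List.replicate u x ++ a :: (List.replicate v x ++ D))) ++
        suf C i (k - i))).count z := by
  obtain ⟨j, hj, hji, hzj⟩ := hz
  by_cases hzx : z = x
  · subst hzx
    simp only [List.count_append, List.count_cons, List.count_replicate_self]
    omega
  · have h1 : z ∈ pre C i ++ suf C i (k - i) := by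
      rw [List.mem_append, mem_pre, mem_suf]
      rcases Nat.lt_or_ge j i with h | h
      · exact Or.inl (Or.inr ⟨j, h, hzj⟩)
      · exact Or.inr (Or.inr ⟨j, by omega, by omega, hzj⟩)
    have h2 := hO.mu z h1 (hC.ok j hj z hzj)
    have h3 : ∀ m : ℕ, (List.replicate m x).count z = 0 := fun m =>
      List.count_eq_zero.2 (fun h => hzx (List.eq_of_mem_replicate h))
    simp only [List.count_append, List.count_cons, h3] at h2 ⊢
    omega

/-- **MWD**. -/
theorem mwd (_h1 : CrmStmt) : MwdStmt := by
  intro n k θ C hB hC i p x a hA Z hZ d hD H haH s s' hss A D hO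
  have hn := hB.pos
  obtain ⟨P, w, Q, hX⟩ := ctx hA hZ
  have ha : a ∈ pre C i ++ A ∨ a ∈ D ++ suf C i (k - i) := by
    have h1 := (hO.lt a (by simp) haH).2.2
    rcases h1 with h | h
    · exact Or.inl (List.mem_append_left _ h)
    · exact Or.inr (List.mem_append_right _ h)
  have ht : ∀ e e' f f' : ℕ, 1 ≤ e → 1 ≤ e' → 1 ≤ f → 1 ≤ f' → e ≡ e' [MOD n] →
      f ≡ f' [MOD n] → RR θ (Wd (pre C i) (suf C i (k - i))
        (A ++ (List.replicate e x ++ a :: (List.replicate f x ++ D))))
        (Wd (pre C i) (suf C i (k - i))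
        (A ++ (List.replicate e' x ++ a :: (List.replicate f' x ++ D)))) := by
    intro e e' f f' he he' hf hf' hee hff
    have h := tw hB (pre C i ++ A) (D ++ suf C i (k - i)) x a e e' f f' ha he he' hf hf' hee hff
    unfold MWGR.Wd
    simp only [List.append_assoc, List.cons_append] at h ⊢
    exact h
  -- the two ends
  have c1 : n + s ≡ s' + (2 * n + d) [MOD n] := by
    unfold Nat.ModEq at hss ⊢
    have e : s' + (2 * n + d) = s' + d + n * 2 := by ring
    rw [e, Nat.add_mul_mod_self_left, Nat.add_mod_left]
    exact hss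
  have c2 : n + (n - 1) * s ≡ 2 * n + (n - 1) * s [MOD n] := by
    unfold Nat.ModEq
    have e : 2 * n + (n - 1) * s = n + (n + (n - 1) * s) := by ring
    rw [e, Nat.add_mod_left n (n + (n - 1) * s)]
  have c3 : s' + 2 * n ≡ n + s' [MOD n] := by
    unfold Nat.ModEq
    have e : s' + 2 * n = s' + n * 2 := by ring
    rw [e, Nat.add_mul_mod_self_left, Nat.add_mod_left]
  have c4 : 2 * n + d + (n - 1) * s ≡ n + (n - 1) * s' [MOD n] := by
    have h := (hss.mul_left (n - 1)).add_left (2 * n + d)
    refine h.trans ?_
    obtain ⟨N, rfl⟩ : ∃ N, n = N + 1 := ⟨n - 1, by omega⟩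
    have e : 2 * (N + 1) + d + (N + 1 - 1) * (s' + d) =
        (N + 1) + (N + 1 - 1) * s' + (N + 1) * (1 + d) := by
      rw [Nat.add_sub_cancel]
      ring
    unfold Nat.ModEq
    rw [e, Nat.add_mul_mod_self_left]
  have t1 := ht (n + s) (s' + (2 * n + d)) (n + (n - 1) * s) (2 * n + (n - 1) * s) (by omega)
    (by omega) (by omega) (by omega) c1 c2
  have t2 := ht (s' + 2 * n) (n + s') (2 * n + d + (n - 1) * s) (n + (n - 1) * s') (by omega)
    (by omega) (by omega) (by omega) c3 c4
  have g1 := side hB hA hX (A ++ List.replicate s' x) (List.replicate ((n - 1) * s) x ++ D)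
    (2 * n + d) (2 * n) (by
      intro z hz
      have h := mulO hC hA.ik A D _ _ (s' + (2 * n + d)) (2 * n + (n - 1) * s) hO (by omega) z hz
      simp only [List.count_append, List.count_cons, List.replicate_add] at h ⊢
      omega)
  have g2 := side hB hA hX (A ++ List.replicate s' x) (List.replicate ((n - 1) * s) x ++ D)
    (2 * n) (2 * n + d) (by
      intro z hz
      have h := mulO hC hA.ik A D _ _ (s' + 2 * n) (2 * n + d + (n - 1) * s) hO (by omega) z hz
      simp only [List.count_append, List.count_cons, List.replicate_add] at h ⊢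
      omega)
  have g3 := rr_ins θ (PP i p x Z C P (A ++ List.replicate s' x))
    (QQ i p x Z w Q (List.replicate ((n - 1) * s) x ++ D)) (hs x a)
    (blkOk_wz n k i p Z _ _) (blkOk_wz n k i p Z _ _) hD
  have e1 : Wd (pre C i) (suf C i (k - i)) (A ++ (List.replicate (s' + (2 * n + d)) x ++
        a :: (List.replicate (2 * n + (n - 1) * s) x ++ D))) =
      Wd (pre C i) (suf C i (k - i)) ((A ++ List.replicate s' x) ++
        (List.replicate (2 * n + d) x ++ a :: (List.replicate (2 * n) x ++
          (List.replicate ((n - 1) * s) x ++ D)))) := by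
    rw [List.replicate_add s', List.replicate_add (2 * n) ((n - 1) * s)]
    simp only [List.append_assoc]
  have e2 : Wd (pre C i) (suf C i (k - i)) (A ++ (List.replicate (s' + 2 * n) x ++
        a :: (List.replicate (2 * n + d + (n - 1) * s) x ++ D))) =
      Wd (pre C i) (suf C i (k - i)) ((A ++ List.replicate s' x) ++
        (List.replicate (2 * n) x ++ a :: (List.replicate (2 * n + d) x ++
          (List.replicate ((n - 1) * s) x ++ D)))) := by
    rw [List.replicate_add s', List.replicate_add (2 * n + d) ((n - 1) * s)]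
    simp only [List.append_assoc]
  rw [e1] at t1
  rw [e2] at t2
  exact θ.trans t1 (θ.trans g1 (θ.trans g3 (θ.trans g2.symm t2)))

end Pool.Agent.MWGI.H51
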